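import Pool.Agent.Helper35.HS3.GoalsB

/-!
# HS3-PL: Phragmén–Lindelöf in a half-space
-/

set_option autoImplicit false

namespace Pool.Agent.Helper51.HS3.PL

open Pool.Agent.Helper35.HS3
open MeasureTheory Set Filter Topology Metric
open scoped ContDiff

/-- the quadratic barrier -/
noncomputable def Q (b c d e : ℝ) (y : E) : ℝ :=
  ‖y‖ ^ 2 + ((-3) * (y 0) ^ 2 + (b * y 0 + (c * y 1 + (d * y 2 + e))))

theorem contDiff_Q (b c d e : ℝ) {n : WithTop ℕ∞} : ContDiff ℝ n (Q b c d e) := by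
  unfold Q
  exact (contDiff_norm_sq ℝ).add ((contDiff_const.mul ((contDiff_coord 0).pow 2)).add
    ((contDiff_const.mul (contDiff_coord 0)).add ((contDiff_const.mul (contDiff_coord 1)).add
      ((contDiff_const.mul (contDiff_coord 2)).add contDiff_const))))

theorem dcoord (j : Fin 3) (x : E) : DifferentiableAt ℝ (fun y : E => y j) x :=
  ((contDiff_coord j (n := 1)).differentiable (by norm_num)) x

theorem pd_Q (b c d e : ℝ) (i : Fin 3) :
    pd i (Q b c d e) = fun y => 2 * y i + ((-6) * (if (0 : Fin 3) = i then 1 else 0) * y 0 +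
      (b * (if (0 : Fin 3) = i then 1 else 0) + (c * (if (1 : Fin 3) = i then 1 else 0) +
        d * (if (2 : Fin 3) = i then 1 else 0)))) := by
  funext y
  have hn : DifferentiableAt ℝ (fun y : E => ‖y‖ ^ 2) y :=
    ((contDiff_norm_sq ℝ (n := 1)).differentiable (by norm_num)) y
  have h0 := dcoord 0 y
  have h1 := dcoord 1 y
  have h2 := dcoord 2 y
  have hc : DifferentiableAt ℝ (fun _ : E => e) y := differentiableAt_const e
  have g0 : DifferentiableAt ℝ (fun y : E => (y 0) ^ 2) y := h0.pow 2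
  have g1 : DifferentiableAt ℝ (fun y : E => (-3) * (y 0) ^ 2) y := g0.const_mul _
  have g2 : DifferentiableAt ℝ (fun y : E => b * y 0) y := h0.const_mul _
  have g3 : DifferentiableAt ℝ (fun y : E => c * y 1) y := h1.const_mul _
  have g4 : DifferentiableAt ℝ (fun y : E => d * y 2) y := h2.const_mul _
  have g5 : DifferentiableAt ℝ (fun y : E => d * y 2 + e) y := g4.add hc
  have g6 : DifferentiableAt ℝ (fun y : E => c * y 1 + (d * y 2 + e)) y := g3.add g5
  have g7 : DifferentiableAt ℝ (fun y : E => b * y 0 + (c * y 1 + (d * y 2 + e))) y := g2.add g6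
  have g8 : DifferentiableAt ℝ
    (fun y : E => (-3) * (y 0) ^ 2 + (b * y 0 + (c * y 1 + (d * y 2 + e)))) y := g1.add g7
  unfold Q
  rw [pd_add hn g8, pd_add g1 g7, pd_add g2 g6, pd_add g3 g5, pd_add g4 hc,
    pd_const_mul _ g0, pd_const_mul _ h0, pd_const_mul _ h1, pd_const_mul _ h2,
    pd_norm_sq, pd_pow 2 h0, pd_coord, pd_coord, pd_coord]
  have he : pd i (fun _ : E => e) y = 0 := by
    simp [pd_def]
  rw [he]
  simp only [Nat.cast_ofNat, Nat.add_one_sub_one, pow_one]
  ring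

theorem lap_Q (b c d e : ℝ) (x : E) : lap (Q b c d e) x = 0 := by
  unfold lap
  have key : ∀ i : Fin 3, pd i (pd i (Q b c d e)) x =
      2 + (-6) * (if (0 : Fin 3) = i then 1 else 0) := by
    intro i
    rw [pd_Q]
    set k : ℝ := (b * (if (0 : Fin 3) = i then 1 else 0) +
      (c * (if (1 : Fin 3) = i then 1 else 0) + d * (if (2 : Fin 3) = i then 1 else 0)))
    set l : ℝ := (-6) * (if (0 : Fin 3) = i then 1 else 0) with hl
    have hi := dcoord i x
    have h0 := dcoord 0 x
    have hc : DifferentiableAt ℝ (fun _ : E => k) x := differentiableAt_const k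
    have g1 : DifferentiableAt ℝ (fun y : E => 2 * y i) x := hi.const_mul _
    have g2 : DifferentiableAt ℝ (fun y : E => l * y 0) x := h0.const_mul _
    have g3 : DifferentiableAt ℝ (fun y : E => l * y 0 + k) x := g2.add hc
    rw [pd_add g1 g3, pd_add g2 hc, pd_const_mul _ hi, pd_const_mul _ h0, pd_coord, pd_coord]
    have he : pd i (fun _ : E => k) x = 0 := by simp [pd_def]
    rw [he, hl]
    by_cases h : (0 : Fin 3) = i <;> simp [h]
  rw [Finset.sum_congr rfl fun i _ => key i]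
  simp [Fin.sum_univ_three]
  norm_num

/-- **HS3-PL**. -/
theorem proof (hM : MAXP_stmt) : PL_stmt := by
  intro u C hu hsub hneg hC hlin x hx0
  rcases hx0.eq_or_lt with h0 | hlt
  · have := hneg x h0.symm.le
    rw [← h0]
    simpa using this
  set p : E := x - (x 0) • bv 0 with hp
  have p0 : p 0 = 0 := by simp [hp, bv]
  have p1 : p 1 = x 1 := by simp [hp, bv]
  have p2 : p 2 = x 2 := by simp [hp, bv]
  set ρ : ℝ := 3 * (1 + ‖p‖) + x 0 + 1 with hρ
  have hpn : 0 ≤ ‖p‖ := norm_nonneg _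
  have hρ0 : 0 < ρ := by rw [hρ]; linarith
  have hρx : x 0 < ρ := by rw [hρ]; linarith
  set S : ℝ := C * (1 + ‖p‖ + ρ) with hS
  have hS0 : 0 ≤ S := by rw [hS]; positivity
  set q : E → ℝ := Q (3 * ρ) (-2 * x 1) (-2 * x 2) (x 1 ^ 2 + x 2 ^ 2) with hq
  have hqe : ∀ y : E, q y = (y 1 - x 1) ^ 2 + (y 2 - x 2) ^ 2 - 2 * (y 0) ^ 2 + 3 * ρ * y 0 := by
    intro y
    simp only [hq, Q]
    rw [norm_sq_eq3]
    ring
  set K : ℝ := S / ρ ^ 2 with hK
  have hK0 : 0 ≤ K := by rw [hK]; positivity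
  have hnorm : ∀ y : E, ‖y - p‖ ^ 2 = (y 0) ^ 2 + (y 1 - x 1) ^ 2 + (y 2 - x 2) ^ 2 := by
    intro y
    rw [norm_sq_eq3]
    simp only [PiLp.sub_apply, p0, p1, p2, sub_zero]
  have hc0 : Continuous fun y : E => y 0 := (contDiff_coord 0 (n := 0)).continuous
  set Ω : Set E := {y | 0 < y 0} ∩ ball p ρ with hΩ
  have hopen : IsOpen Ω := (isOpen_lt continuous_const hc0).inter isOpen_ball
  have hbdd : Bornology.IsBounded Ω := isBounded_ball.subset inter_subset_right
  have hcl : closure Ω ⊆ {y | 0 ≤ y 0} ∩ closedBall p ρ := by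
    apply closure_minimal
    · rintro y ⟨h1, h2⟩
      exact ⟨(show 0 ≤ y 0 from le_of_lt h1), ball_subset_closedBall h2⟩
    · exact (isClosed_le continuous_const hc0).inter isClosed_closedBall
  set v : E → ℝ := fun y => u y - K * q y with hv
  have hqcd : ContDiff ℝ 2 q := contDiff_Q _ _ _ _
  have hKq : ContDiff ℝ 2 (fun y => K * q y) := contDiff_const.mul hqcd
  have hvcd : ContDiff ℝ 2 v := hu.sub hKq
  have hlapv : ∀ y, lap v y = lap u y := by
    intro y
    rw [hv, lap_sub hu.contDiffAt hKq.contDiffAt, lap_const_mul K hqcd.contDiffAt, hq, lap_Q]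
    ring
  have hmain := hM Ω v hopen hbdd hvcd.continuous.continuousOn (fun y _ => hvcd.contDiffAt)
    (fun y _ => by rw [hlapv]; exact hsub y) ?_ x ?_
  · have h1 : u x ≤ K * q x := by
      have : u x - K * q x ≤ 0 := hmain
      linarith
    have h2 : q x ≤ 3 * x 0 * ρ := by
      rw [hqe]
      nlinarith [sq_nonneg (x 0)]
    have h3 : K * q x ≤ K * (3 * x 0 * ρ) := mul_le_mul_of_nonneg_left h2 hK0
    have h4 : K * (3 * x 0 * ρ) = 3 * x 0 * S / ρ := by
      rw [hK]; field_simp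
    have h5 : 3 * x 0 * S / ρ ≤ 4 * C * x 0 := by
      rw [div_le_iff₀ hρ0, hS]
      have h6 : 3 * (1 + ‖p‖ + ρ) ≤ 4 * ρ := by rw [hρ]; linarith
      have h7 : (C * x 0) * (3 * (1 + ‖p‖ + ρ)) ≤ (C * x 0) * (4 * ρ) :=
        mul_le_mul_of_nonneg_left h6 (by positivity)
      nlinarith [h7]
    linarith
  · intro y hy
    have hycl : y ∈ closure Ω := frontier_subset_closure hy
    have hyn : y ∉ Ω := by
      rw [← hopen.interior_eq]
      exact hy.2
    obtain ⟨hy0, hyR⟩ := hcl hycl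
    have hy0' : 0 ≤ y 0 := hy0
    have hyR' : ‖y - p‖ ≤ ρ := by
      rw [← dist_eq_norm]; exact hyR
    show u y - K * q y ≤ 0
    by_cases hc : y 0 = 0
    · have h1 := hneg y hc.le
      have h2 : 0 ≤ q y := by
        rw [hqe, hc]
        nlinarith [sq_nonneg (y 1 - x 1), sq_nonneg (y 2 - x 2)]
      have h3 := mul_nonneg hK0 h2
      linarith
    · have hgt : 0 < y 0 := lt_of_le_of_ne hy0' (Ne.symm hc)
      have hRe : ‖y - p‖ = ρ := by
        apply le_antisymm hyR'
        by_contra hlt'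
        push Not at hlt'
        apply hyn
        refine ⟨hgt, ?_⟩
        rw [mem_ball, dist_eq_norm]
        exact hlt'
      have hsq := hnorm y
      rw [hRe] at hsq
      have hle : y 0 ≤ ρ := by
        have e1 := sq_nonneg (y 1 - x 1)
        have e2 := sq_nonneg (y 2 - x 2)
        have e3 : (y 0) ^ 2 ≤ ρ ^ 2 := by rw [hsq]; linarith
        exact (sq_le_sq₀ hy0' hρ0.le).mp e3
      have h1 : ρ ^ 2 ≤ q y := by
        rw [hqe, hsq]
        nlinarith [mul_nonneg hy0' (sub_nonneg.mpr hle)]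
      have h2 : S ≤ K * q y := by
        calc S = K * ρ ^ 2 := by rw [hK]; field_simp
          _ ≤ K * q y := mul_le_mul_of_nonneg_left h1 hK0
      have h3 : ‖y‖ ≤ ‖p‖ + ρ := by
        calc ‖y‖ = ‖(y - p) + p‖ := by rw [sub_add_cancel]
          _ ≤ ‖y - p‖ + ‖p‖ := norm_add_le _ _
          _ = ‖p‖ + ρ := by rw [hRe]; ring
      have h4 := hlin y
      have h5 : C * (1 + ‖y‖) ≤ S := by
        rw [hS]
        exact mul_le_mul_of_nonneg_left (by linarith) hC
      linarith
  · refine ⟨hlt, ?_⟩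
    rw [mem_ball, dist_eq_norm]
    have h1 := hnorm x
    rw [sub_self, sub_self] at h1
    have h2 : ‖x - p‖ = x 0 := by
      have h3 : ‖x - p‖ ^ 2 = x 0 ^ 2 := by rw [h1]; ring
      exact (sq_eq_sq₀ (norm_nonneg _) hlt.le).mp h3
    rw [h2]
    exact hρx

end Pool.Agent.Helper51.HS3.PL
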